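import Pool.Agent.N71.PS.Tasks
import Pool.Agent.H38R2.CG.NB

/-!
# PS/DENS: the primes `= ± 1 mod 5` have density `1 / 2` in `(y, 2 y]`
-/

set_option autoImplicit false

namespace Pool.Agent.N427.PS

open Finset Filter

/-- the primes `= ± 1 mod 5` -/
def P5 : Set ℕ := {p | p % 5 = 1 ∨ p % 5 = 4}

instance : Fact (Nat.Prime 5) := ⟨by norm_num⟩

/-- the quadratic character modulo 5 -/
noncomputable def chi : DirichletCharacter ℂ 5 :=
  (quadraticChar (ZMod 5)).ringHomComp (Int.castRingHom ℂ)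

theorem chi_apply (a : ZMod 5) : chi a = ((quadraticChar (ZMod 5) a : ℤ) : ℂ) := rfl

theorem q1 : quadraticChar (ZMod 5) 1 = 1 := by decide
theorem q4 : quadraticChar (ZMod 5) 4 = 1 := by decide
theorem q2 : quadraticChar (ZMod 5) 2 = -1 := by decide
theorem q3 : quadraticChar (ZMod 5) 3 = -1 := by decide

theorem chi_ne_one : chi ≠ 1 := by
  intro h
  have h1 : chi 2 = 1 := by
    rw [h]
    exact MulChar.one_apply (by decide)
  rw [chi_apply, q2] at h1
  norm_num at h1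

theorem chi_primitive : chi.IsPrimitive := by
  rw [DirichletCharacter.isPrimitive_def]
  have h1 : chi.conductor ∣ 5 := DirichletCharacter.conductor_dvd_level chi
  rcases (Nat.dvd_prime (by norm_num : Nat.Prime 5)).1 h1 with h | h
  · exact absurd (DirichletCharacter.eq_one_iff_conductor_eq_one.2 h) chi_ne_one
  · exact h

theorem cast_mod (p : ℕ) : (p : ZMod 5) = ((p % 5 : ℕ) : ZMod 5) := (ZMod.natCast_mod p 5).symm

theorem chi_P5 {p : ℕ} (hp : p ∈ P5) : chi (p : ZMod 5) = 1 := by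
  rw [chi_apply, cast_mod]
  rcases hp with h | h
  · rw [h]
    have : quadraticChar (ZMod 5) ((1 : ℕ) : ZMod 5) = 1 := by decide
    rw [this]; norm_num
  · rw [h]
    have : quadraticChar (ZMod 5) ((4 : ℕ) : ZMod 5) = 1 := by decide
    rw [this]; norm_num

theorem chi_not {p : ℕ} (hp : p.Prime) (h5 : 5 < p) (hn : p ∉ P5) : chi (p : ZMod 5) = -1 := by
  have h0 : p % 5 ≠ 0 := by
    intro h
    have h1 : 5 ∣ p := Nat.dvd_of_mod_eq_zero h
    have := (Nat.prime_dvd_prime_iff_eq (by norm_num) hp).1 h1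
    omega
  have h1 : p % 5 = 2 ∨ p % 5 = 3 := by
    have h2 : ¬ (p % 5 = 1 ∨ p % 5 = 4) := hn
    have h3 : p % 5 < 5 := Nat.mod_lt _ (by norm_num)
    omega
  rw [chi_apply, cast_mod]
  rcases h1 with h | h
  · rw [h]
    have : quadraticChar (ZMod 5) ((2 : ℕ) : ZMod 5) = -1 := by decide
    rw [this]; norm_num
  · rw [h]
    have : quadraticChar (ZMod 5) ((3 : ℕ) : ZMod 5) = -1 := by decide
    rw [this]; norm_num

theorem dens (hSW : Pool.Agent.N71.PS.S_SW) : ∀ δ : ℝ, 0 < δ → ∃ y0 : ℕ, ∀ y ≥ y0,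
    (1 / 2 - δ) * (Pool.Agent.H38R2.CG.PP y).card ≤
      (Pool.Agent.N71.PS.primesIn P5 y).card := by
  classical
  intro δ hδ
  obtain ⟨y1, hy1⟩ := hSW 1 (9 / 10 * (2 * δ)) (by positivity)
  obtain ⟨y2, hy2⟩ := Pool.Agent.H38R2.CG.T_NB.2
  obtain ⟨y3, hy3⟩ := eventually_atTop.1 ((Real.tendsto_log_atTop.comp
    tendsto_natCast_atTop_atTop).eventually_ge_atTop (5 : ℝ))
  refine ⟨max (max y1 y2) (max y3 5), fun y hy => ?_⟩
  have h1 : y1 ≤ y := le_trans (le_trans (le_max_left _ _) (le_max_left _ _)) hy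
  have h2 : y2 ≤ y := le_trans (le_trans (le_max_right _ _) (le_max_left _ _)) hy
  have h3 : y3 ≤ y := le_trans (le_trans (le_max_left _ _) (le_max_right _ _)) hy
  have h4 : 5 ≤ y := le_trans (le_trans (le_max_right _ _) (le_max_right _ _)) hy
  have hlog : (5 : ℝ) ≤ Real.log y := hy3 y h3
  have hsw := hy1 y h1 5 (by norm_num) (by rw [pow_one]; exact_mod_cast hlog) chi chi_primitive
  have hnb := (hy2 y h2).1
  set Q := Pool.Agent.H38R2.CG.PP y with hQ
  set A := Pool.Agent.N71.PS.primesIn P5 y with hA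
  have hQm : ∀ p, p ∈ Q ↔ (y < p ∧ p ≤ 2 * y) ∧ p.Prime := by
    intro p
    rw [hQ, Pool.Agent.H38R2.CG.PP, mem_filter, mem_Ioc]
  have hAm : ∀ p, p ∈ A ↔ (y < p ∧ p ≤ 2 * y) ∧ p.Prime ∧ p ∈ P5 := by
    intro p
    rw [hA, Pool.Agent.N71.PS.primesIn, mem_filter, mem_Ioc]
  have hAQ : A ⊆ Q := fun p hp => (hQm p).2 ⟨((hAm p).1 hp).1, ((hAm p).1 hp).2.1⟩
  have hsum : ∑ p ∈ Q, chi (p : ZMod 5) = ((2 * (A.card : ℝ) - Q.card : ℝ) : ℂ) := by
    rw [← sum_sdiff hAQ]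
    have e1 : ∑ p ∈ Q \ A, chi (p : ZMod 5) = ∑ p ∈ Q \ A, (-1 : ℂ) := by
      refine sum_congr rfl fun p hp => ?_
      rw [Finset.mem_sdiff, hQm] at hp
      refine chi_not hp.1.2 (by omega) fun h5 => hp.2 ((hAm p).2 ⟨hp.1.1, hp.1.2, h5⟩)
    have e2 : ∑ p ∈ A, chi (p : ZMod 5) = ∑ p ∈ A, (1 : ℂ) := by
      refine sum_congr rfl fun p hp => ?_
      exact chi_P5 ((hAm p).1 hp).2.2
    have e3 : ((Q \ A).card : ℂ) = Q.card - A.card := by
      rw [card_sdiff_of_subset hAQ, Nat.cast_sub (card_le_card hAQ)]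
    rw [e1, e2, sum_const, sum_const, nsmul_eq_mul, nsmul_eq_mul, e3]
    push_cast
    ring
  rw [hsum, Complex.norm_real, Real.norm_eq_abs] at hsw
  have h5 := (abs_le.1 hsw).1
  have h6 : 9 / 10 * (2 * δ) * y / Real.log y ≤ 2 * δ * Q.card := by
    calc 9 / 10 * (2 * δ) * y / Real.log y = 2 * δ * (9 / 10 * y / Real.log y) := by ring
      _ ≤ 2 * δ * Q.card := by gcongr
  linarith

end Pool.Agent.N427.PS
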